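import Pool.Agent.P.MP_3d36e1_mp.G.Root
import Pool.Agent.P.MP_3d36e1_mp.G.Cvx

set_option autoImplicit false
open MeasureTheory Pool.Agent.P.MP_3d36e1_mp

namespace Pool.Agent.Results.MP_3d36e1_mp.ExactRange

theorem result (p A γ : ℝ) (hp : 1 < p) (hA : 0 < A) (hγ : 0 < γ) :
    (∀ z lam : ℝ, 0 < z → 0 < lam → ∃ (ρ : R3 → ℝ) (ψ : ℝ → ℝ), IsMinimiser A γ p z lam ρ ∧
      ContinuousOn ψ (Set.Ici 0) ∧ (∀ r, 0 ≤ r → 0 < ψ r) ∧ ∀ᵐ x, √(ρ x) = ψ ‖x‖) ∧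
    ((∀ z lam : ℝ, 0 < z → 0 < lam → ∀ (ρ : R3 → ℝ) (ψ : ℝ → ℝ), IsMinimiser A γ p z lam ρ →
      ContinuousOn ψ (Set.Ici 0) → (∀ᵐ x, √(ρ x) = ψ ‖x‖) → ConvexOn ℝ (Set.Ici 0) ψ) ↔
      p ≤ 3 / 2) := by
  refine ⟨fun z lam hz hl => G.exists_root hp hA hγ hz hl, fun h => ?_, ?_⟩
  · by_contra hn
    obtain ⟨z, lam, hz, hl, ρ₀, g₀, h₀, hbeat⟩ := beat_convex (not_le.1 hn) hA hγ
    obtain ⟨ρ, ψ, hm, c, -, hψ⟩ := G.exists_root hp hA hγ hz hl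
    have hc := h z lam hz hl ρ ψ hm c hψ
    obtain ⟨g, hg, hmin⟩ := hm
    exact absurd (hmin _ _ h₀) (not_le.2 (hbeat ρ g hg ψ hψ hc))
  · intro h z lam hz hl ρ ψ hm c hψ
    obtain ⟨X, Ψ, -, -, hq, -, -, -, -, -, -, e, c', -, -, hΨ⟩ := G.root hp hA hγ hz hl hm
    exact G.convex X (by rw [hq]; linarith)
      (fun r hr => (G.root_unique c c' hψ hΨ hr.le).trans (e r hr)) c

end Pool.Agent.Results.MP_3d36e1_mp.ExactRange
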