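import Pool.Agent.P.MP_3d36e1_mp.G.Root
import Pool.Agent.P.MP_3d36e1_mp.G.Never

set_option autoImplicit false
open MeasureTheory Pool.Agent.P.MP_3d36e1_mp

namespace Pool.Agent.Results.MP_3d36e1_mp.IonNotLogConvex

theorem result (p A γ z : ℝ) (hp : 1 < p) (hp2 : p < 2) (hA : 0 < A) (hγ : 0 < γ) (hz : 0 < z) :
    ∃ l : ℝ, 0 < l ∧ ∀ lam : ℝ, 0 < lam → lam < l →
      (∃ (ρ : R3 → ℝ) (ψ : ℝ → ℝ), IsMinimiser A γ p z lam ρ ∧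
        ContinuousOn ψ (Set.Ici 0) ∧ (∀ r, 0 ≤ r → 0 < ψ r) ∧ ∀ᵐ x, √(ρ x) = ψ ‖x‖) ∧
      ∀ (ρ : R3 → ℝ) (ψ : ℝ → ℝ), IsMinimiser A γ p z lam ρ → ContinuousOn ψ (Set.Ici 0) →
        (∀ᵐ x, √(ρ x) = ψ ‖x‖) → ¬ ConvexOn ℝ (Set.Ici 0) (fun r => Real.log (ψ r)) := by
  obtain ⟨l, hl, h⟩ := (nhdsGT_basis (0 : ℝ)).eventually_iff.1
    (G.never (q := 2 * p - 2) hA hγ (by linarith) (by linarith) hz)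
  refine ⟨l, hl, fun lam h1 h2 => ⟨G.exists_root hp hA hγ hz h1, fun ρ ψ hm c hψ hc => ?_⟩⟩
  obtain ⟨X, Ψ, x1, x2, x3, x4, x5, x6, x7, x8, x9, -, c', -, hk, hΨ⟩ := G.root hp hA hγ hz h1 hm
  refine h ⟨h1, h2⟩ X _ x1 x2 x3 x4 x5 x6 x7 x8 x9 (hk.1 (hc.congr fun r hr => ?_))
  simp only [G.root_unique c c' hψ hΨ hr]

end Pool.Agent.Results.MP_3d36e1_mp.IonNotLogConvex
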