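import Pool.Agent.P.MP_3d36e1_mp.Lc.Main
import Pool.Agent.P.MP_3d36e1_mp.G.Ex
import Pool.Agent.P.MP_3d36e1_mp.G.Sol

set_option autoImplicit false
open MeasureTheory Pool.Agent.P.MP_3d36e1_mp

namespace Pool.Agent.Results.MP_3d36e1_mp.LogConvexCriterion

theorem result (p A γ z lam : ℝ) (hp : 1 < p) (hp' : p ≤ 5 / 3) (hA : 0 < A) (hγ : 0 < γ)
    (hz : 0 < z) (hlam : 0 < lam) :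
    (∃ ρ, IsMinimiser A γ p z lam ρ) ∧
    ∀ ρ, IsMinimiser A γ p z lam ρ → ∃ (ψ : ℝ → ℝ) (μ : ℝ),
      (∀ᵐ x, √(ρ x) = ψ ‖x‖) ∧ ContinuousOn ψ (Set.Ici 0) ∧ (∀ r, 0 ≤ r → 0 < ψ r) ∧ 0 ≤ μ ∧
      (∀ x : R3, x ≠ 0 → DifferentiableAt ℝ ψ ‖x‖ ∧ DifferentiableAt ℝ (deriv ψ) ‖x‖ ∧
        -A * (deriv (deriv ψ) ‖x‖ + 2 / ‖x‖ * deriv ψ ‖x‖) +
          (γ * ψ ‖x‖ ^ (2 * p - 2) - z / ‖x‖ + ∫ y, ψ ‖y‖ ^ 2 / ‖x - y‖) * ψ ‖x‖ = -μ * ψ ‖x‖) ∧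
      (ConvexOn ℝ (Set.Ici 0) (fun r => Real.log (ψ r)) ↔ μ = 0 ∨ z - lam ≤ 2 * √(A * μ)) := by
  refine ⟨G.exists_minimiser hp hA hγ hz hlam, fun ρ h => ?_⟩
  obtain ⟨μ, U, U1, h1, h2, h3, h4, h5, h6, h7, h8, h9, h10, h11⟩ :=
    G.minsol hp hA hγ hz hlam h (G.radial hp hA hγ hz h)
  obtain ⟨ψ, a, b, c, d, e⟩ := Lc.final hp hp' hA hγ hz h.choose_spec.1.nonneg h9 h1 h2 h3 h4 h5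
    h6 h7 h8 h10 h11
  exact ⟨ψ, μ, a, b, c, h1, d, e⟩

end Pool.Agent.Results.MP_3d36e1_mp.LogConvexCriterion
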