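import Pool.Agent.P.MP_3d36e1_mp.Radial

set_option autoImplicit false
open MeasureTheory Pool.Agent.P.MP_3d36e1_mp

namespace Pool.Agent.Results.MP_3d36e1_mp.NotConvex

theorem result (p A γ : ℝ) (hp : 3 / 2 < p) (hA : 0 < A) (hγ : 0 < γ) :
    ∃ z lam : ℝ, 0 < z ∧ 0 < lam ∧
      (∃ (ρ : R3 → ℝ) (ψ : ℝ → ℝ), IsMinimiser A γ p z lam ρ ∧ ∀ᵐ x, √(ρ x) = ψ ‖x‖) ∧
      ∀ (ρ : R3 → ℝ) (ψ : ℝ → ℝ), IsMinimiser A γ p z lam ρ → (∀ᵐ x, √(ρ x) = ψ ‖x‖) →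
        ¬ ConvexOn ℝ (Set.Ici 0) ψ := by
  obtain ⟨z, lam, hz, hlam, ρ₀, g₀, h₀, hbeat⟩ := beat_convex hp hA hγ
  refine ⟨z, lam, hz, hlam, exists_radial_minimiser hp hA hγ hz hlam, ?_⟩
  rintro ρ ψ ⟨g, hg, hmin⟩ hψ hc
  exact absurd (hmin _ _ h₀) (not_le.2 (hbeat ρ g hg ψ hψ hc))

end Pool.Agent.Results.MP_3d36e1_mp.NotConvex
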